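import Pool.Agent.H97.Cube2

set_option autoImplicit false

namespace Pool.Agent.Results.MP_961199_an.Lower

open Pool.Agent.H97.Cube

theorem result : ∀ p q C : ℝ, 1 < p → p < q → q ≤ 2 → 0 < C → Adm p q C →
    Real.sqrt (2 * q / p - 1) ≤ C :=
  fun _ _ _ hp hpq _ hC h => lower hp.le hpq hC h

end Pool.Agent.Results.MP_961199_an.Lower
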